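import Pool.Agent.Q60.D3H.StmA
import Pool.Agent.W547.LN.Closure

/-!
# Project D3H, job A6 PRT: the orbit of a CM type of primitive type
-/

set_option linter.unusedSectionVars false
set_option linter.unusedVariables false

namespace Pool.Agent.Q182.D3H.Prt

open NumberField Module Pool.Agent.H204R3.CM
open Pool.Agent.W547.KB (CMPair CMAV cc IsHalf Wt St mono trForm single Balanced)
open Pool.Agent.W547.LD (hs isHalf_hs tr_hs stable_hs compl_hs trans_hs)
open Pool.Agent.W547.LD.Comb (tr)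
open Pool.Agent.W547.LN (exists_smul card_hom)
open Pool.Agent.Q60.D3H

noncomputable section

variable {L : Type} [Field L] [NumberField L] [IsCMField L] [IsGalois ℚ L]

/-- Embeddings commute with the complex conjugations. -/
theorem map_conj (B : CMPair) (j : L →+* ℂ) (φ : B.E →+* L) (x : B.E) :
    φ (IsCMField.complexConj B.E x) = cc L (φ x) := by
  apply j.injective
  rw [Pool.Agent.W547.KB.emb_cc]
  exact IsCMField.complexEmbedding_complexConj B.E (j.comp φ) x

/-- Two embeddings which agree on the maximal real subfield are equal or conjugate. -/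
theorem eq_or_conj (B : CMPair) (j : L →+* ℂ) (φ ψ : B.E →+* L)
    (h : ∀ a ∈ maximalRealSubfield B.E, ψ a = φ a) : ψ = φ ∨ ψ = cc L • φ := by
  have hx : ∀ x, ψ x = φ x ∨ ψ x = cc L (φ x) := by
    intro x
    set y := IsCMField.complexConj B.E x with hy
    have hyy : IsCMField.complexConj B.E y = x := IsCMField.complexConj_apply_apply B.E x
    have h1 : x + y ∈ maximalRealSubfield B.E := by
      rw [← IsCMField.complexConj_eq_self_iff]
      rw [map_add, hyy, ← hy, add_comm]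
    have h2 : x * y ∈ maximalRealSubfield B.E := by
      rw [← IsCMField.complexConj_eq_self_iff]
      rw [map_mul, hyy, ← hy, mul_comm]
    have h3 := h _ h1
    have h4 := h _ h2
    rw [map_add, map_add] at h3
    rw [map_mul, map_mul] at h4
    have h5 : (ψ x - φ x) * (ψ x - φ y) = 0 := by
      have h6 : ψ y = φ x + φ y - ψ x := by rw [← h3]; ring
      rw [h6] at h4
      linear_combination -h4
    rcases mul_eq_zero.1 h5 with h6 | h6
    · exact Or.inl (sub_eq_zero.1 h6)
    · right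
      rw [sub_eq_zero.1 h6, hy, map_conj B j]
  by_contra hcon
  push Not at hcon
  obtain ⟨hc1, hc2⟩ := hcon
  have h1 : ∃ x, ψ x ≠ φ x := by
    by_contra h
    push Not at h
    exact hc1 (RingHom.ext h)
  have h2 : ∃ x, ψ x ≠ cc L (φ x) := by
    by_contra h
    push Not at h
    exact hc2 (RingHom.ext h)
  obtain ⟨x, hx1⟩ := h1
  obtain ⟨y, hy1⟩ := h2
  have hx2 : ψ x = cc L (φ x) := (hx x).resolve_left hx1
  have hy2 : ψ y = φ y := (hx y).resolve_right hy1
  rcases hx (x + y) with h3 | h3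
  · rw [map_add, map_add, hy2] at h3
    exact hx1 (add_right_cancel h3)
  · rw [map_add, map_add, map_add, hx2] at h3
    exact hy1 (add_left_cancel h3)

theorem tr_cc (B : CMPair) (j : L →+* ℂ) (φ : B.E →+* L) :
    hs B j (cc L • φ) = (hs B j φ)ᶜ := by
  rw [← tr_hs]
  exact Pool.Agent.W547.LD.Comb.tr_c (fun g => Pool.Agent.W547.KB.cc_comm j g) (isHalf_hs B j φ)

/-- An automorphism which fixes the image of the maximal real subfield. -/
theorem tr_of_fix (B : CMPair) (j : L →+* ℂ) (φ : B.E →+* L) (τ : L ≃ₐ[ℚ] L)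
    (h : ∀ a ∈ maximalRealSubfield B.E, τ (φ a) = φ a) :
    (τ • φ = φ ∨ τ • φ = cc L • φ) ∧
      (tr τ (hs B j φ) = hs B j φ ∨ tr τ (hs B j φ) = (hs B j φ)ᶜ) := by
  have h1 := eq_or_conj B j φ (τ • φ) h
  refine ⟨h1, ?_⟩
  rw [tr_hs]
  rcases h1 with h1 | h1
  · left; rw [h1]
  · right; rw [h1, tr_cc]

/-- The dichotomy for the subgroups containing the stabilizer of the pair. -/
theorem key (B : CMPair) (hB : PrimT B) (j : L →+* ℂ) (φ : B.E →+* L) (H : Subgroup (L ≃ₐ[ℚ] L))
    (hH : ∀ τ, tr τ (hs B j φ) = hs B j φ ∨ tr τ (hs B j φ) = (hs B j φ)ᶜ → τ ∈ H) :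
    (∀ τ ∈ H, ∀ a ∈ maximalRealSubfield B.E, τ (φ a) = φ a) ∨ H = ⊤ := by
  let F := maximalRealSubfield B.E
  -- the image of the real field
  let M : IntermediateField ℚ L := IntermediateField.fixedField H
  let ι : B.E →ₐ[ℚ] L := RingHom.equivRatAlgHom B.E L φ
  let F1 : IntermediateField ℚ B.E := M.comap ι
  let FF : IntermediateField ℚ B.E := F.toIntermediateField (fun x => by
    exact SubfieldClass.ratCast_mem F x)
  let W : IntermediateField ℚ L := FF.map ι
  have hM : M ≤ W := by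
    rw [← IsGalois.fixedField_fixingSubgroup W]
    refine (IntermediateField.fixedField_antitone : _) ?_
    intro τ hτ
    refine hH τ (tr_of_fix B j φ τ ?_).2
    intro a ha
    exact (IntermediateField.mem_fixingSubgroup_iff W τ).1 hτ _ ⟨a, ha, rfl⟩
  have hle : F1.toSubfield ≤ F := by
    intro a ha
    have h1 : ι a ∈ M := ha
    obtain ⟨b, hb, hb2⟩ := hM h1
    have h2 : b = a := ι.toRingHom.injective hb2
    rw [← h2]
    exact hb
  rcases hB.1 F1.toSubfield hle with h | h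
  · right
    have h1 : M = ⊥ := by
      rw [eq_bot_iff]
      intro x hx
      obtain ⟨b, hb, rfl⟩ := hM hx
      have h2 : b ∈ F1.toSubfield := hx
      rw [h] at h2
      have h3 : b ∈ (⊥ : IntermediateField ℚ B.E) := by
        have h4 : (⊥ : Subfield B.E) ≤ (⊥ : IntermediateField ℚ B.E).toSubfield := bot_le
        exact h4 h2
      obtain ⟨q, rfl⟩ := IntermediateField.mem_bot.1 h3
      rw [IntermediateField.mem_bot]
      exact ⟨q, (ι.commutes q).symm⟩
    have h2 : IntermediateField.fixingSubgroup M = H := IntermediateField.fixingSubgroup_fixedField H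
    rw [h1] at h2
    rw [← h2]
    exact IntermediateField.fixingSubgroup_bot
  · left
    intro τ hτ a ha
    have h1 : a ∈ F1.toSubfield := by
      rw [h]
      exact ha
    have h2 : ι a ∈ M := h1
    exact (IntermediateField.mem_fixedField_iff H (ι a)).1 h2 τ hτ

/-- `j` identifies the normal closures in `L` and in `ℂ`. -/
theorem map_closure (K : Type) [Field K] [Algebra ℚ K] (j : L →+* ℂ)
    (hj : ∀ ψ : K →+* ℂ, ∃ φ : K →+* L, j.comp φ = ψ) :
    finrank ℚ (IntermediateField.normalClosure ℚ K L) =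
      finrank ℚ (IntermediateField.normalClosure ℚ K ℂ) := by
  let jj : L →ₐ[ℚ] ℂ := RingHom.equivRatAlgHom L ℂ j
  have h1 : (IntermediateField.normalClosure ℚ K L).map jj = IntermediateField.normalClosure ℚ K ℂ := by
    apply le_antisymm
    · rw [IntermediateField.map_le_iff_le_comap, normalClosure_le_iff]
      rintro φ' _ ⟨b, rfl⟩
      change jj (φ' b) ∈ IntermediateField.normalClosure ℚ K ℂ
      exact (jj.comp φ').fieldRange_le_normalClosure ⟨b, rfl⟩
    · rw [normalClosure_le_iff]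
      rintro ψ _ ⟨a, rfl⟩
      obtain ⟨φ, hφ⟩ := hj (ψ : K →+* ℂ)
      let φ' : K →ₐ[ℚ] L := RingHom.equivRatAlgHom K L φ
      refine ⟨φ' a, φ'.fieldRange_le_normalClosure ⟨a, rfl⟩, ?_⟩
      exact RingHom.congr_fun hφ a
  rw [← h1]
  exact (IntermediateField.equivMap (IntermediateField.normalClosure ℚ K L) jj).toLinearEquiv.finrank_eq

/-- The automorphism which moves some embeddings and fixes some others. -/
theorem exists_mixed (B : CMPair)
    (hB : 2 * finrank ℚ (IntermediateField.normalClosure ℚ (maximalRealSubfield B.E) ℂ) <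
      finrank ℚ (IntermediateField.normalClosure ℚ B.E ℂ)) (j : L →+* ℂ)
    (hj : ∀ ψ : B.E →+* ℂ, ∃ φ : B.E →+* L, j.comp φ = ψ) :
    ∃ h : L ≃ₐ[ℚ] L, (∀ φ : B.E →+* L, h • φ = φ ∨ h • φ = cc L • φ) ∧
      (∃ φ : B.E →+* L, h • φ = φ) ∧ ∃ φ : B.E →+* L, h • φ = cc L • φ := by
  classical
  have hjF : ∀ ψ : maximalRealSubfield B.E →+* ℂ, ∃ φ : maximalRealSubfield B.E →+* L,
      j.comp φ = ψ := by
    intro ψ
    obtain ⟨φ, hφ⟩ := hj (ComplexEmbedding.lift B.E ψ)
    refine ⟨φ.comp (algebraMap _ _), ?_⟩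
    rw [← RingHom.comp_assoc, hφ, ComplexEmbedding.lift_comp_algebraMap]
  rw [← map_closure B.E j hj, ← map_closure (maximalRealSubfield B.E) j hjF] at hB
  set K1 := IntermediateField.normalClosure ℚ (maximalRealSubfield B.E) L with hK1
  set K2 := IntermediateField.normalClosure ℚ B.E L with hK2
  have hc1 : Nat.card K1.fixingSubgroup = finrank K1 L := IsGalois.card_fixingSubgroup_eq_finrank K1
  have hc2 : Nat.card K2.fixingSubgroup = finrank K2 L := IsGalois.card_fixingSubgroup_eq_finrank K2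
  have hm1 : finrank ℚ K1 * finrank K1 L = finrank ℚ L := finrank_mul_finrank ℚ K1 L
  have hm2 : finrank ℚ K2 * finrank K2 L = finrank ℚ L := finrank_mul_finrank ℚ K2 L
  have hpos : 0 < finrank K2 L := finrank_pos
  have hlt : 2 * Nat.card K2.fixingSubgroup < Nat.card K1.fixingSubgroup := by
    rw [hc1, hc2]
    have h1 : finrank ℚ K1 * (2 * finrank K2 L) < finrank ℚ K1 * finrank K1 L := by
      rw [hm1, ← hm2]
      have := Nat.mul_lt_mul_of_pos_right hB hpos
      calc finrank ℚ K1 * (2 * finrank K2 L) = 2 * finrank ℚ K1 * finrank K2 L := by ring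
        _ < _ := this
    exact lt_of_mul_lt_mul_left h1 (Nat.zero_le _)
  -- an element outside
  have hex : ∃ h : L ≃ₐ[ℚ] L, h ∈ K1.fixingSubgroup ∧ h ∉ K2.fixingSubgroup ∧
      cc L * h ∉ K2.fixingSubgroup := by
    by_contra hcon
    push Not at hcon
    have h1 : (K1.fixingSubgroup : Set (L ≃ₐ[ℚ] L)) ⊆
        (K2.fixingSubgroup : Set (L ≃ₐ[ℚ] L)) ∪
          (fun g => cc L * g) '' (K2.fixingSubgroup : Set (L ≃ₐ[ℚ] L)) := by
      intro h hh
      by_cases h2 : h ∈ K2.fixingSubgroup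
      · exact Or.inl h2
      · right
        refine ⟨cc L * h, hcon h hh h2, ?_⟩
        change cc L * (cc L * h) = h
        rw [← mul_assoc, Pool.Agent.W547.KB.cc_cc, one_mul]
    have h2 := Set.ncard_le_ncard h1 (Set.toFinite _)
    have h3 := h2.trans (Set.ncard_union_le _ _)
    have h4 := Set.ncard_image_le (f := fun g => cc L * g)
      (Set.toFinite (K2.fixingSubgroup : Set (L ≃ₐ[ℚ] L)))
    have h5 : (K1.fixingSubgroup : Set (L ≃ₐ[ℚ] L)).ncard = Nat.card K1.fixingSubgroup := rfl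
    have h6 : (K2.fixingSubgroup : Set (L ≃ₐ[ℚ] L)).ncard = Nat.card K2.fixingSubgroup := rfl
    omega
  obtain ⟨h, hh1, hh2, hh3⟩ := hex
  have hall : ∀ φ : B.E →+* L, h • φ = φ ∨ h • φ = cc L • φ := by
    intro φ
    refine (tr_of_fix B j φ h ?_).1
    intro a ha
    refine (IntermediateField.mem_fixingSubgroup_iff K1 h).1 hh1 _ ?_
    let χ : maximalRealSubfield B.E →ₐ[ℚ] L :=
      RingHom.equivRatAlgHom _ L (φ.comp (algebraMap (maximalRealSubfield B.E) B.E))
    exact χ.fieldRange_le_normalClosure ⟨⟨a, ha⟩, rfl⟩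
  -- fixing all embeddings
  have hfix : ∀ g : L ≃ₐ[ℚ] L, (∀ φ : B.E →+* L, g • φ = φ) → g ∈ K2.fixingSubgroup := by
    intro g hg
    have h1 : K2 ≤ IntermediateField.fixedField (Subgroup.zpowers g) := by
      rw [hK2, normalClosure_le_iff]
      rintro ψ _ ⟨a, rfl⟩
      rw [IntermediateField.mem_fixedField_iff]
      intro f hf
      have h2 : ∀ f : L ≃ₐ[ℚ] L, f ∈ Subgroup.zpowers g → f (ψ a) = ψ a := by
        intro f hf
        have h3 : Subgroup.zpowers g ≤ MulAction.stabilizer (L ≃ₐ[ℚ] L) (ψ a) := by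
          rw [Subgroup.zpowers_le]
          exact RingHom.congr_fun (hg (ψ : B.E →+* L)) a
        exact h3 hf
      exact h2 f hf
    rw [IntermediateField.le_iff_le] at h1
    exact h1 (Subgroup.mem_zpowers g)
  refine ⟨h, hall, ?_, ?_⟩
  · by_contra hcon
    push Not at hcon
    apply hh3
    apply hfix
    intro φ
    have h1 := (hall φ).resolve_left (hcon φ)
    rw [mul_smul, h1, ← mul_smul, Pool.Agent.W547.KB.cc_cc, one_smul]
  · by_contra hcon
    push Not at hcon
    apply hh2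
    apply hfix
    intro φ
    exact (hall φ).resolve_right (hcon φ)

theorem compl_ne (S : Set (L ≃ₐ[ℚ] L)) : S ≠ Sᶜ := by
  intro h
  have h1 : (1 : L ≃ₐ[ℚ] L) ∈ S ↔ (1 : L ≃ₐ[ℚ] L) ∈ Sᶜ := by rw [← h]
  rw [Set.mem_compl_iff] at h1
  tauto

/-- The stabilizer of a pair `{S, Sᶜ}`. -/
def pairStab (S : Set (L ≃ₐ[ℚ] L)) : Subgroup (L ≃ₐ[ℚ] L) where
  carrier := {τ | tr τ S = S ∨ tr τ S = Sᶜ}
  one_mem' := Or.inl (Pool.Agent.W547.LD.Comb.tr_one S)
  mul_mem' := by
    intro a b ha hb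
    change tr (a * b) S = S ∨ tr (a * b) S = Sᶜ
    change tr a S = S ∨ tr a S = Sᶜ at ha
    change tr b S = S ∨ tr b S = Sᶜ at hb
    rw [← Pool.Agent.W547.LD.Comb.tr_tr]
    rcases hb with hb | hb <;> rcases ha with ha | ha <;> rw [hb]
    · rw [ha]; exact Or.inl rfl
    · rw [ha]; exact Or.inr rfl
    · rw [Pool.Agent.W547.LD.Comb.tr_compl, ha]; exact Or.inr rfl
    · rw [Pool.Agent.W547.LD.Comb.tr_compl, ha, compl_compl]; exact Or.inl rfl
  inv_mem' := by
    intro a ha
    change tr a S = S ∨ tr a S = Sᶜ at ha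
    change tr a⁻¹ S = S ∨ tr a⁻¹ S = Sᶜ
    have h1 : tr a⁻¹ (tr a S) = S := Pool.Agent.W547.LD.Comb.tr_inv_tr a S
    rcases ha with ha | ha <;> rw [ha] at h1
    · exact Or.inl h1
    · right
      rw [Pool.Agent.W547.LD.Comb.tr_compl] at h1
      rw [← h1, compl_compl, h1]

theorem prt : S_prt := by
  intro B hB L _ _ _ _ j hj
  obtain ⟨h, hall, ⟨φ1, hφ1⟩, ⟨φ2, hφ2⟩⟩ := exists_mixed B hB.2 j hj
  have hmix : (∀ S ∈ Set.range (hs B j), tr h S = S ∨ tr h S = Sᶜ) ∧
      (∃ S ∈ Set.range (hs B j), tr h S = S) ∧ ∃ S ∈ Set.range (hs B j), tr h S = Sᶜ := by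
    refine ⟨?_, ?_, ?_⟩
    · rintro _ ⟨φ, rfl⟩
      rw [tr_hs]
      rcases hall φ with h1 | h1
      · left; rw [h1]
      · right; rw [h1, tr_cc]
    · exact ⟨_, ⟨φ1, rfl⟩, by rw [tr_hs, hφ1]⟩
    · exact ⟨_, ⟨φ2, rfl⟩, by rw [tr_hs, hφ2, tr_cc]⟩
  refine ⟨?_, ⟨h, hmix⟩, ?_⟩
  · rintro _ ⟨φ, rfl⟩ H hH
    rcases key B hB j φ H hH with h1 | h1
    · left
      intro τ hτ
      exact (tr_of_fix B j φ τ (h1 τ hτ)).2
    · exact Or.inr h1
  · intro φ ψ hφψ
    obtain ⟨g, hg⟩ := exists_smul B φ ψ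
    have hgS : tr g (hs B j φ) = hs B j φ := by
      rw [tr_hs, hg, ← hφψ]
    rcases key B hB j φ (pairStab (hs B j φ)) (fun τ hτ => hτ) with h1 | h1
    · have h2 := (tr_of_fix B j φ g (h1 g (Or.inl hgS))).1
      rcases h2 with h2 | h2
      · rw [← hg, h2]
      · exfalso
        rw [tr_hs, h2, tr_cc] at hgS
        exact compl_ne _ hgS.symm
    · exfalso
      have hall2 : ∀ S ∈ Set.range (hs B j), S = hs B j φ ∨ S = (hs B j φ)ᶜ := by
        rintro _ ⟨χ, rfl⟩
        obtain ⟨g', hg'⟩ := exists_smul B φ χ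
        have h2 : g' ∈ pairStab (hs B j φ) := by rw [h1]; exact Subgroup.mem_top _
        have h3 : tr g' (hs B j φ) = hs B j φ ∨ tr g' (hs B j φ) = (hs B j φ)ᶜ := h2
        rwa [tr_hs, hg'] at h3
      obtain ⟨-, ⟨S1, hS1, hS1'⟩, ⟨S2, hS2, hS2'⟩⟩ := hmix
      have hfix : tr h (hs B j φ) = hs B j φ := by
        rcases hall2 S1 hS1 with h2 | h2
        · rw [h2] at hS1'
          exact hS1'
        · rw [h2, Pool.Agent.W547.LD.Comb.tr_compl] at hS1'
          exact compl_injective hS1'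
      rcases hall2 S2 hS2 with h2 | h2
      · rw [h2, hfix] at hS2'
        exact compl_ne _ hS2'
      · rw [h2, Pool.Agent.W547.LD.Comb.tr_compl, hfix] at hS2'
        exact compl_ne _ hS2'

end

end Pool.Agent.Q182.D3H.Prt
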